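import Pool.Agent.Y465.SZ.Stm2

/-!
Project Y465-SZ: job EUL, Euler's formula implies that all cycles mod 2 bound.
-/

set_option autoImplicit false
set_option linter.unusedSectionVars false

namespace Pool.Agent.Y970.SZ

open Pool.Agent.Y465.SZ Module

/-- functions constant along a relation -/
def IR {X : Type} (r : X → X → Prop) : Submodule (ZMod 2) (X → ZMod 2) where
  carrier := {f | ∀ a b, r a b → f a = f b}
  add_mem' := by
    intro f g hf hg a b h
    rw [Pi.add_apply, Pi.add_apply, hf a b h, hg a b h]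
  zero_mem' := fun _ _ _ => rfl
  smul_mem' := by
    intro c f hf a b h
    rw [Pi.smul_apply, Pi.smul_apply, hf a b h]

lemma mem_IR {X : Type} {r : X → X → Prop} {f : X → ZMod 2} :
    f ∈ IR r ↔ ∀ a b, r a b → f a = f b := Iff.rfl

/-- they are the functions on the quotient -/
def irEquiv {X : Type} (r : X → X → Prop) : IR r ≃ₗ[ZMod 2] (Quot r → ZMod 2) where
  toFun f := Quot.lift f.1 f.2
  map_add' f g := by
    funext x
    induction x using Quot.ind
    rfl
  map_smul' c f := by
    funext x
    induction x using Quot.ind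
    rfl
  invFun g := ⟨fun x => g (Quot.mk r x), fun a b h => congrArg g (Quot.sound h)⟩
  left_inv f := rfl
  right_inv g := by
    funext x
    induction x using Quot.ind
    rfl

lemma finrank_IR {X : Type} [Finite X] (r : X → X → Prop) :
    finrank (ZMod 2) (IR r) = Nat.card (Quot r) := by
  classical
  have : Fintype (Quot r) := Fintype.ofFinite _
  rw [(irEquiv r).finrank_eq, Module.finrank_fintype_fun_eq_card, Nat.card_eq_fintype_card]

variable {E : Type} [Fintype E] [DecidableEq E]

/-- functions on faces -/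
abbrev C2 (mate : E × Fin 4 → E × Fin 4) : Submodule (ZMod 2) (E × Fin 4 → ZMod 2) :=
  IR fun a b : E × Fin 4 => b = ((mate a).1, (mate a).2 - 1)

/-- functions on edges -/
abbrev C1 (mate : E × Fin 4 → E × Fin 4) : Submodule (ZMod 2) (E × Fin 4 → ZMod 2) :=
  IR fun a b : E × Fin 4 => b = mate a

/-- functions on components -/
abbrev C0 (mate : E × Fin 4 → E × Fin 4) : Submodule (ZMod 2) (E → ZMod 2) :=
  IR fun a b : E => ∃ i j, mate (a, i) = (b, j)

/-- boundary of a function on faces -/
def bd2 : (E × Fin 4 → ZMod 2) →ₗ[ZMod 2] (E × Fin 4 → ZMod 2) where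
  toFun c h := c h + c (h.1, h.2 - 1)
  map_add' c c' := by
    funext h
    simp only [Pi.add_apply]
    ring
  map_smul' s c := by
    funext h
    simp only [Pi.smul_apply, smul_eq_mul, RingHom.id_apply]
    ring

/-- boundary of a function on edges -/
def bd1 : (E × Fin 4 → ZMod 2) →ₗ[ZMod 2] (E → ZMod 2) where
  toFun Z e := ∑ i, Z (e, i)
  map_add' c c' := by
    funext e
    simp only [Pi.add_apply, Finset.sum_add_distrib]
  map_smul' s c := by
    funext e
    simp only [Pi.smul_apply, smul_eq_mul, RingHom.id_apply, Finset.mul_sum]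

lemma bd2_apply (c : E × Fin 4 → ZMod 2) (h : E × Fin 4) : bd2 c h = c h + c (h.1, h.2 - 1) := rfl
lemma bd1_apply (Z : E × Fin 4 → ZMod 2) (e : E) : bd1 Z e = ∑ i, Z (e, i) := rfl

lemma two_cancel (x y : ZMod 2) : x + y = 0 ↔ x = y := by revert x y; decide

lemma add_self2 (x : ZMod 2) : x + x = 0 := by revert x; decide

variable {mate : E × Fin 4 → E × Fin 4}

/-- `dim C1 ≤ 2 |E|` -/
lemma finrank_C1 (hm : ∀ h, mate (mate h) = h) (hne : ∀ h, mate h ≠ h) :
    finrank (ZMod 2) (C1 mate) ≤ 2 * Fintype.card E := by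
  classical
  -- `θ f = f + f ∘ mate`
  let θ : (E × Fin 4 → ZMod 2) →ₗ[ZMod 2] (E × Fin 4 → ZMod 2) :=
    LinearMap.id + LinearMap.funLeft (ZMod 2) (ZMod 2) mate
  have hθ : ∀ f h, θ f h = f h + f (mate h) := fun f h => rfl
  have hker : LinearMap.ker θ = C1 mate := by
    ext f
    rw [LinearMap.mem_ker, mem_IR]
    constructor
    · intro hf a b hab
      have := congrFun hf a
      rw [hθ, Pi.zero_apply, two_cancel] at this
      rw [hab, this]
    · intro hf
      funext h
      rw [hθ, Pi.zero_apply, two_cancel]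
      exact hf h (mate h) rfl
  have hrange : C1 mate ≤ LinearMap.range θ := by
    intro Z hZ
    let e := Fintype.equivFin (E × Fin 4)
    refine ⟨fun h => if e h < e (mate h) then Z h else 0, ?_⟩
    funext h
    rw [hθ, hm]
    have hZh : Z h = Z (mate h) := hZ h (mate h) rfl
    have hne' : e h ≠ e (mate h) := fun h' => hne h (e.injective h').symm
    rcases lt_or_gt_of_ne hne' with h1 | h1
    · rw [if_pos h1, if_neg (not_lt.2 h1.le), add_zero]
    · rw [if_neg (not_lt.2 h1.le), if_pos h1, zero_add, ← hZh]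
  have h1 := LinearMap.finrank_range_add_finrank_ker θ
  have h2 := Submodule.finrank_mono hrange
  rw [hker] at h1
  have h3 : finrank (ZMod 2) (E × Fin 4 → ZMod 2) = Fintype.card E * 4 := by
    rw [Module.finrank_fintype_fun_eq_card, Fintype.card_prod, Fintype.card_fin]
  omega

/-- the kernel of `bd2` on `C2` has dimension at most the number of components -/
lemma finrank_ker2 (hm : ∀ h, mate (mate h) = h) :
    finrank (ZMod 2) (LinearMap.ker (bd2.domRestrict (C2 mate))) ≤ finrank (ZMod 2) (C0 mate) := by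
  have hc : ∀ c : LinearMap.ker (bd2.domRestrict (C2 mate)), ∀ e : E, ∀ i : Fin 4,
      c.1.1 (e, i) = c.1.1 (e, 0) := by
    intro c e i
    have h1 : ∀ j : Fin 4, c.1.1 (e, j) = c.1.1 (e, j - 1) := by
      intro j
      have h2 : bd2 c.1.1 = 0 := c.2
      have h3 := congrFun h2 (e, j)
      rwa [bd2_apply, Pi.zero_apply, two_cancel] at h3
    fin_cases i
    · rfl
    · exact h1 1
    · exact (h1 2).trans (h1 1)
    · exact (h1 3).trans ((h1 2).trans (h1 1))
  let f : LinearMap.ker (bd2.domRestrict (C2 mate)) →ₗ[ZMod 2] C0 mate :=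
    { toFun := fun c => ⟨fun e => c.1.1 (e, 0), by
        rw [mem_IR]
        rintro a b ⟨i, j, hij⟩
        have h1 : c.1.1 (a, i) = c.1.1 ((mate (a, i)).1, (mate (a, i)).2 - 1) := c.1.2 _ _ rfl
        rw [hij] at h1
        rw [← hc c a i, h1, hc c b]⟩
      map_add' := fun _ _ => rfl
      map_smul' := fun _ _ => rfl }
  apply LinearMap.finrank_le_finrank_of_injective (f := f)
  intro c c' h
  have h1 : ∀ e, c.1.1 (e, 0) = c'.1.1 (e, 0) := fun e => congrFun (congrArg Subtype.val h) e
  apply Subtype.ext
  apply Subtype.ext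
  funext x
  obtain ⟨e, i⟩ := x
  rw [hc c e i, hc c' e i, h1 e]

/-- the image of `bd1` is large -/
lemma finrank_im1 (hm : ∀ h, mate (mate h) = h) :
    Fintype.card E ≤ finrank (ZMod 2) ((C1 mate).map bd1) + finrank (ZMod 2) (C0 mate) := by
  classical
  set W : Submodule (ZMod 2) (E → ZMod 2) := (C1 mate).map bd1 with hW
  have h1 := Subspace.finrank_add_finrank_dualAnnihilator_eq W
  have h2 : finrank (ZMod 2) W.dualAnnihilator ≤ finrank (ZMod 2) (C0 mate) := by
    let f : W.dualAnnihilator →ₗ[ZMod 2] C0 mate :=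
      { toFun := fun φ => ⟨fun e => φ.1 (Pi.single e 1), by
          rw [mem_IR]
          rintro a b ⟨i, j, hij⟩
          rw [← two_cancel, ← map_add]
          have hφ := φ.2
          rw [Submodule.mem_dualAnnihilator] at hφ
          apply hφ
          refine ⟨Pi.single (a, i) 1 + Pi.single (b, j) 1, ?_, ?_⟩
          · rw [SetLike.mem_coe, mem_IR]
            rintro x y rfl
            have hji : mate (b, j) = (a, i) := by rw [← hij, hm]
            have e1 : mate x = (b, j) ↔ x = (a, i) :=
              ⟨fun h => by rw [← hm x, h, hji], fun h => by rw [h, hij]⟩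
            have e2 : mate x = (a, i) ↔ x = (b, j) :=
              ⟨fun h => by rw [← hm x, h, hij], fun h => by rw [h, hji]⟩
            simp only [Pi.add_apply, Pi.single_apply, e1, e2]
            ring
          · funext e
            rw [bd1_apply]
            simp only [Pi.add_apply, Finset.sum_add_distrib, Pi.single_apply, Prod.mk.injEq]
            congr 1
            · by_cases he : e = a
              · simp [he]
              · simp [he]
            · by_cases he : e = b
              · simp [he]
              · simp [he]⟩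
        map_add' := fun _ _ => rfl
        map_smul' := fun _ _ => rfl }
    apply LinearMap.finrank_le_finrank_of_injective (f := f)
    intro φ ψ h
    have h1 : ∀ e, φ.1 (Pi.single e 1) = ψ.1 (Pi.single e 1) :=
      fun e => congrFun (congrArg Subtype.val h) e
    apply Subtype.ext
    apply LinearMap.pi_ext'
    intro e
    apply LinearMap.ext_ring
    exact h1 e
  rw [Module.finrank_fintype_fun_eq_card] at h1
  omega

lemma bd2_mem (hm : ∀ h, mate (mate h) = h) {c : E × Fin 4 → ZMod 2} (hc : c ∈ C2 mate) :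
    bd2 c ∈ C1 mate := by
  rw [mem_IR] at hc ⊢
  rintro a b rfl
  have h1 := hc a _ rfl
  have h2 := hc (mate a) _ rfl
  rw [hm] at h2
  rw [bd2_apply, bd2_apply, ← h1, h2, add_comm]

lemma bd1_bd2 (c : E × Fin 4 → ZMod 2) : bd1 (bd2 c) = 0 := by
  funext e
  rw [bd1_apply]
  simp only [bd2_apply, Fin.sum_univ_four, Pi.zero_apply]
  have e0 : (0 : Fin 4) - 1 = 3 := rfl
  have e1 : (1 : Fin 4) - 1 = 0 := rfl
  have e2 : (2 : Fin 4) - 1 = 1 := rfl
  have e3 : (3 : Fin 4) - 1 = 2 := rfl
  rw [e0, e1, e2, e3]
  generalize c (e, 0) = x0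
  generalize c (e, 1) = x1
  generalize c (e, 2) = x2
  generalize c (e, 3) = x3
  revert x0 x1 x2 x3
  decide

theorem eul : S_EUL := by
  intro E _ _ mate hm hne heul Z hZ hev
  classical
  -- the two spaces
  set P : Submodule (ZMod 2) (E × Fin 4 → ZMod 2) := (C2 mate).map bd2 with hP
  set Q : Submodule (ZMod 2) (E × Fin 4 → ZMod 2) :=
    (LinearMap.ker (bd1.domRestrict (C1 mate))).map (C1 mate).subtype with hQ
  have hPQ : P ≤ Q := by
    rintro _ ⟨c, hc, rfl⟩
    exact ⟨⟨bd2 c, bd2_mem hm hc⟩, bd1_bd2 c, rfl⟩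
  have hF : finrank (ZMod 2) (C2 mate) = nFaces mate := finrank_IR _
  have hC : finrank (ZMod 2) (C0 mate) = nComps mate := finrank_IR _
  have d1 := LinearMap.finrank_range_add_finrank_ker (bd2.domRestrict (C2 mate))
  rw [LinearMap.range_domRestrict] at d1
  have d2 := LinearMap.finrank_range_add_finrank_ker (bd1.domRestrict (C1 mate))
  rw [LinearMap.range_domRestrict] at d2
  have d1' : finrank (ZMod 2) P + finrank (ZMod 2) (LinearMap.ker (bd2.domRestrict (C2 mate))) =
    finrank (ZMod 2) (C2 mate) := d1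
  have d3 := finrank_ker2 hm
  have d4 := finrank_im1 hm
  have d5 := finrank_C1 hm hne
  have d6 : finrank (ZMod 2) Q = finrank (ZMod 2) (LinearMap.ker (bd1.domRestrict (C1 mate))) :=
    Submodule.finrank_map_subtype_eq _ _
  have hEq : P = Q := by
    apply Submodule.eq_of_le_of_finrank_le hPQ
    rw [d6]
    rw [hF] at d1'
    rw [hC] at d3 d4
    omega
  -- the given cycle
  set z : E × Fin 4 → ZMod 2 := fun h => if Z h then 1 else 0 with hz
  have hz1 : z ∈ C1 mate := by
    rw [mem_IR]
    rintro a b rfl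
    simp only [hz, hZ]
  have hz2 : bd1 z = 0 := by
    funext e
    rw [bd1_apply, Fin.sum_univ_four, Pi.zero_apply]
    have h := hev e
    simp only [hz]
    revert h
    generalize Z (e, 0) = x0
    generalize Z (e, 1) = x1
    generalize Z (e, 2) = x2
    generalize Z (e, 3) = x3
    revert x0 x1 x2 x3
    decide
  have hzQ : z ∈ Q := ⟨⟨z, hz1⟩, hz2, rfl⟩
  rw [← hEq] at hzQ
  obtain ⟨c, hc, hcz⟩ := hzQ
  refine ⟨fun h => decide (c h = 1), fun h => ?_, fun e i => ?_⟩
  · have h1 : c h = c ((mate h).1, (mate h).2 - 1) := hc h _ rfl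
    simp only [h1]
  · have h1 := congrFun hcz (e, i)
    rw [bd2_apply] at h1
    simp only [hz] at h1
    change Z (e, i) = (decide (c (e, i) = 1) ^^ decide (c (e, i - 1) = 1))
    revert h1
    generalize c (e, i) = x
    generalize c (e, i - 1) = y
    generalize Z (e, i) = w
    revert x y w
    decide

end Pool.Agent.Y970.SZ
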